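import Mathlib
import Pool.Agent.H.MP_9fc12a_nt.C

namespace Pool.Agent.Results.MP_47b218_nt.Auto

def H (n : ℕ) : ℤ :=
  (Matrix.of fun i j : Fin n => (((Nat.digits 2 (i + j)).count 1 : ℕ) : ℤ)).det

lemma cnt (n : ℕ) : (Nat.digits 2 n).count 1 = (Nat.digits 2 n).sum := by
  have h : ∀ d ∈ Nat.digits 2 n, d < 2 := fun d hd => Nat.digits_lt_base (by norm_num) hd
  generalize Nat.digits 2 n = l at h
  induction l with
  | nil => rfl
  | cons a l ih =>
    have h1 := h a (by simp)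
    rw [List.count_cons, List.sum_cons, ih (fun d hd => h d (by simp [hd]))]
    interval_cases a <;> simp [add_comm]

open Pool.Agent.H.MP_9fc12a_nt in
theorem result (k : ℕ) (hk : 1 ≤ k) :
    {f : ℕ → ℤ | ∃ e r : ℕ, r < 2 ^ e ∧
      f = fun n => H (2 ^ e * n + r + 1) % 2 ^ k}.Finite := by
  have : NeZero (2 ^ k) := ⟨by positivity⟩
  have hq : ∀ x : ZMod (2 ^ k), (2 * x - 1) ^ 2 ^ k = 1 := by
    intro x
    have h0 : (2 * x) ^ k = 0 := by
      have h2 := ZMod.natCast_self (2 ^ k)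
      rw [Nat.cast_pow, Nat.cast_ofNat] at h2
      rw [mul_pow, h2, zero_mul]
    obtain ⟨u, hu⟩ := (IsNilpotent.isUnit_sub_one ⟨k, h0⟩)
    have h1 := ZMod.pow_totient u
    obtain ⟨j, rfl⟩ : ∃ j, k = j + 1 := ⟨k - 1, by omega⟩
    rw [Nat.totient_prime_pow Nat.prime_two (by omega)] at h1
    simp only [Nat.add_one_sub_one, mul_one] at h1
    have h2 : u ^ (2 ^ j * 2) = 1 := by rw [pow_mul, h1, one_pow]
    rw [← hu, ← Units.val_pow_eq_pow_val]
    exact congrArg Units.val h2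
  have h := auto k hk hq (fun n => (H (n + 1) : ZMod (2 ^ k))) (by
    intro j ρ hρ
    have h1 := H_int j ρ hρ
    have h2 := (map_AB (Int.castRingHom (ZMod (2 ^ k))) j ρ 1).2
    rw [map_one, ← h1] at h2
    rw [← h2]
    simp only [H, cnt, Hk, Pool.Agent.Lib.helper11.Det.D, S_one]
    rfl) (fun y => (y.val : ℤ))
  simpa only [ZMod.val_intCast, Nat.cast_pow, Nat.cast_ofNat] using h

end Pool.Agent.Results.MP_47b218_nt.Auto
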